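import Pool.Agent.helper35.MR.SpecB

/-! # Project mr, module DT: determinants and ranks of the matrices of words -/

namespace Pool.Agent.helper35.MR

open Finset Pool.Agent.RRank

theorem DT_tri {K : Type} [Field K] (l : ℕ) (x y : K) (hx : x ≠ 0) :
    (Matrix.of (fun i j : Fin l => (if i = j then x else 0) + (if i < j then y else 0))).det ≠ 0 := by
  rw [Matrix.det_of_isUpperTriangular]
  · simp [hx]
  · intro i j hij
    have h1 : j < i := hij
    simp [h1.ne', not_lt_of_gt h1]

theorem DT_low {K : Type} [Field K] (l : ℕ) (x y : K) (hx : x ≠ 0) :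
    (Matrix.of (fun i j : Fin l => (if i = j then x else 0) + (if j < i then y else 0))).det ≠ 0 := by
  have h1 := DT_tri (K := K) l x y hx
  rw [← Matrix.det_transpose] at h1
  have h2 : (Matrix.of (fun i j : Fin l => (if i = j then x else 0) + (if i < j then y else 0))).transpose =
      (Matrix.of (fun i j : Fin l => (if i = j then x else 0) + (if j < i then y else 0))) := by
    ext i j
    simp [Matrix.transpose_apply, eq_comm]
  rwa [h2] at h1

theorem DT_add {K : Type} [Field K] {l : ℕ} (A B : Matrix (Fin l) (Fin l) K) :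
    (A + B).rank ≤ A.rank + B.rank := by
  unfold Matrix.rank
  rw [Matrix.mulVecLin_add]
  have h1 : LinearMap.range (A.mulVecLin + B.mulVecLin) ≤
      LinearMap.range A.mulVecLin ⊔ LinearMap.range B.mulVecLin := by
    rintro _ ⟨v, rfl⟩
    exact Submodule.add_mem_sup ⟨v, rfl⟩ ⟨v, rfl⟩
  exact (Submodule.finrank_mono h1).trans (Submodule.finrank_add_le_finrank_add_finrank _ _)

theorem DT_rank {K : Type} [Field K] {l : ℕ} (M N : Matrix (Fin l) (Fin l) K) (z : K)
    (hN : N.det ≠ 0) (h : ∀ i j, M i j = N i j + z) : l ≤ M.rank + 1 := by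
  have h1 : N = M + Matrix.vecMulVec (fun _ => -z) (fun _ => 1) := by
    ext i j
    rw [Matrix.add_apply, Matrix.vecMulVec_apply, h i j]
    ring
  have h2 : N.rank = l := by
    rw [Matrix.rank_of_det_ne_zero hN, Fintype.card_fin]
  have h3 := DT_add M (Matrix.vecMulVec (fun _ => -z) (fun _ => 1))
  have h4 := Matrix.rank_vecMulVec_le (R := K) (fun _ : Fin l => -z) (fun _ : Fin l => (1 : K))
  rw [← h1, h2] at h3
  omega

/-- kernel criterion -/
theorem DT_ker {K : Type} [Field K] {l : ℕ} (M N : Matrix (Fin l) (Fin l) K) (z : K)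
    (hN : N.det ≠ 0) (h : ∀ i j, M i j = N i j + z)
    (h0 : ∀ v : Fin l → K, M.mulVec v = 0 → ∑ j, v j = 0) : M.det ≠ 0 := by
  intro hM
  obtain ⟨v, hv, hMv⟩ := Matrix.exists_mulVec_eq_zero_iff.2 hM
  have h1 := h0 v hMv
  refine hN (Matrix.exists_mulVec_eq_zero_iff.1 ⟨v, hv, ?_⟩)
  funext i
  have h2 := congrFun hMv i
  simp only [Matrix.mulVec, dotProduct, Pi.zero_apply] at h2 ⊢
  have h3 : ∑ j, M i j * v j = ∑ j, N i j * v j + z * ∑ j, v j := by
    rw [Finset.mul_sum, ← Finset.sum_add_distrib]
    refine Finset.sum_congr rfl fun j _ => ?_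
    rw [h i j]
    ring
  rw [h3, h1, mul_zero, add_zero] at h2
  exact h2

theorem DT : DT_stmt := by
  intro K _ l hl
  have hlt : ∀ i j : Fin l, (if i ≤ j then (1 : K) else 0) =
      (if i = j then 1 else 0) + (if i < j then 1 else 0) := by
    intro i j
    rcases lt_trichotomy i j with h | h | h
    · simp [h, h.le, h.ne]
    · simp [h]
    · simp [not_le_of_gt h, h.ne', not_lt_of_gt h]
  have hlow : ∀ i j : Fin l, (if i < j then (1 : K) else 0) =
      ((if i = j then -1 else 0) + (if j < i then -1 else 0)) + 1 := by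
    intro i j
    rcases lt_trichotomy i j with h | h | h
    · simp [h, h.ne, not_lt_of_gt h]
    · simp [h]
    · simp [h, h.ne', not_lt_of_gt h]
  let i0 : Fin l := ⟨0, hl⟩
  let i1 : Fin l := ⟨l - 1, by omega⟩
  refine ⟨?_, ?_, ?_, ?_, ?_, ?_⟩
  · intro c hc
    refine DT_ker _ _ (-c) (DT_tri (K := K) l 1 1 one_ne_zero) (fun i j => ?_) (fun v hv => ?_)
    · simp only [Matrix.of_apply]
      rw [hlt i j]
      ring
    · have h1 := congrFun hv i0
      simp only [Matrix.mulVec, dotProduct, Pi.zero_apply, Matrix.of_apply] at h1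
      have h2 : ∀ j : Fin l, ((if i0 ≤ j then (1 : K) else 0) - c) * v j = (1 - c) * v j := by
        intro j
        have h3 : i0 ≤ j := Fin.mk_le_of_le_val (Nat.zero_le _)
        simp [h3]
      rw [Finset.sum_congr rfl fun j _ => h2 j, ← Finset.mul_sum] at h1
      exact (mul_eq_zero.1 h1).resolve_left (sub_ne_zero.2 (Ne.symm hc))
  · intro c hc
    refine DT_ker _ _ (1 - c) (DT_low (K := K) l (-1) (-1) (by simp)) (fun i j => ?_) (fun v hv => ?_)
    · simp only [Matrix.of_apply]
      rw [hlow i j]
      ring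
    · have h1 := congrFun hv i1
      simp only [Matrix.mulVec, dotProduct, Pi.zero_apply, Matrix.of_apply] at h1
      have h2 : ∀ j : Fin l, ((if i1 < j then (1 : K) else 0) - c) * v j = (-c) * v j := by
        intro j
        have h3 : ¬ i1 < j := by
          intro h4
          have h5 : l - 1 < j.1 := h4
          have h6 := j.2
          omega
        simp [h3]
      rw [Finset.sum_congr rfl fun j _ => h2 j, ← Finset.mul_sum] at h1
      exact (mul_eq_zero.1 h1).resolve_left (neg_ne_zero.2 hc)
  · intro p q hp hq hM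
    obtain ⟨v, hv, hMv⟩ := Matrix.exists_mulVec_eq_zero_iff.2 hM
    have h1 : ∀ i : Fin l, (if i.1 + 1 ≠ l then p * v i else 0) + q * ∑ j, v j = 0 := by
      intro i
      have h2 := congrFun hMv i
      simp only [Matrix.mulVec, dotProduct, Pi.zero_apply, Matrix.of_apply] at h2
      rw [Finset.mul_sum]
      have h3 : (if i.1 + 1 ≠ l then p * v i else 0) =
          ∑ j, (if i = j then (if i.1 + 1 ≠ l then p * v j else 0) else 0) := by
        rw [Finset.sum_ite_eq Finset.univ i, if_pos (Finset.mem_univ _)]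
      rw [h3, ← Finset.sum_add_distrib]
      refine Eq.trans (Finset.sum_congr rfl fun j _ => ?_) h2
      by_cases h4 : i = j
      · by_cases h5 : i.1 + 1 = l
        · simp [h5]
        · subst h4
          simp only [h5, ne_eq, not_false_eq_true, and_self, if_true]
          ring
      · simp [h4]
    have hS : ∑ j, v j = 0 := by
      have h2 := h1 i1
      have h3 : ¬ (i1.1 + 1 ≠ l) := by
        show ¬ (l - 1 + 1 ≠ l)
        omega
      rw [if_neg h3, zero_add] at h2
      exact (mul_eq_zero.1 h2).resolve_left hq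
    have hz : ∀ i : Fin l, i.1 + 1 ≠ l → v i = 0 := by
      intro i hi
      have h2 := h1 i
      rw [if_pos hi, hS, mul_zero, add_zero] at h2
      exact (mul_eq_zero.1 h2).resolve_left hp
    refine hv (funext fun i => ?_)
    by_cases hi : i.1 + 1 = l
    · rw [Finset.sum_eq_single i (fun j _ hj => hz j fun h => hj (Fin.ext (by omega)))
        (fun h => absurd (Finset.mem_univ _) h)] at hS
      exact hS
    · exact hz i hi
  · intro x y z hx
    exact DT_rank _ _ z (DT_tri (K := K) l x y hx) (fun i j => rfl)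
  · intro c
    refine DT_rank _ _ (-c) (DT_tri (K := K) l 1 1 one_ne_zero) (fun i j => ?_)
    simp only [Matrix.of_apply]
    rw [hlt i j]
    ring
  · intro c
    refine DT_rank _ _ (1 - c) (DT_low (K := K) l (-1) (-1) (by simp)) (fun i j => ?_)
    simp only [Matrix.of_apply]
    rw [hlow i j]
    ring

end Pool.Agent.helper35.MR
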