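import Pool.Agent.helper35.MR.SpecB

/-! # Project mr, module LRN: a matrix which vanishes on a product of subspaces has small rank -/

namespace Pool.Agent.helper35.MR

open Finset Pool.Agent.RRank

noncomputable def LRN_L {K X : Type} [Field K] [Fintype X] (b : X → K) : (X → K) →ₗ[K] K :=
  ∑ x, b x • (LinearMap.proj x : (X → K) →ₗ[K] K)

theorem LRN_L_apply {K X : Type} [Field K] [Fintype X] (b u : X → K) :
    LRN_L b u = ev1 b u := by
  unfold LRN_L ev1
  simp [LinearMap.sum_apply]

theorem LRN_ev1_single {K X : Type} [Field K] [Fintype X] [DecidableEq X] (b : X → K) (x : X) :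
    ev1 b (Pi.single x 1) = b x := by
  unfold ev1
  simp [Pi.single_apply]

theorem LRN_comb {K X : Type} [Field K] [Fintype X] {g : ℕ} (f : Fin g → X → K) (a : X → K)
    (h : ∀ ξ, (∀ n, ev1 (f n) ξ = 0) → ev1 a ξ = 0) :
    ∃ c : Fin g → K, ∀ x, a x = ∑ n, c n * f n x := by
  classical
  have h1 : LRN_L a ∈ Submodule.span K (Set.range fun n => LRN_L (f n)) := by
    apply mem_span_of_iInf_ker_le_ker
    intro ξ hξ
    rw [LinearMap.mem_ker, LRN_L_apply]
    apply h
    intro n
    have h2 := (Submodule.mem_iInf _).1 hξ n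
    rw [LinearMap.mem_ker, LRN_L_apply] at h2
    exact h2
  obtain ⟨c, hc⟩ := (Submodule.mem_span_range_iff_exists_fun K).1 h1
  refine ⟨c, fun x => ?_⟩
  have h2 := congrArg (fun F : (X → K) →ₗ[K] K => F (Pi.single x 1)) hc
  simp only [LinearMap.sum_apply, LinearMap.smul_apply, LRN_L_apply, LRN_ev1_single,
    smul_eq_mul] at h2
  exact h2.symm

theorem LRN : LRN_stmt := by
  intro K X Y _ _ _ A g g' f h hA
  classical
  by_contra hcon
  push Not at hcon
  apply hA
  have hrow : ∀ η : Y → K, (∀ n, ev1 (h n) η = 0) →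
      (fun x => ∑ y, A x y * η y) ∈ Submodule.span K (Set.range f) := by
    intro η hη
    obtain ⟨c, hc⟩ := LRN_comb f (fun x => ∑ y, A x y * η y) (by
      intro ξ hξ
      have h1 := hcon ξ η hξ hη
      rw [← h1]
      unfold ev1 ev2
      refine Finset.sum_congr rfl fun x _ => ?_
      rw [Finset.sum_mul]
      refine Finset.sum_congr rfl fun y _ => ?_
      ring)
    refine (Submodule.mem_span_range_iff_exists_fun K).2 ⟨c, ?_⟩
    funext x
    rw [hc x]
    simp
  obtain ⟨p, hp⟩ := LinearMap.exists_leftInverse_of_injective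
    (Submodule.span K (Set.range f)).subtype (Submodule.ker_subtype _)
  have hp' : ∀ v ∈ Submodule.span K (Set.range f), ((p v : Submodule.span K (Set.range f)) : X → K) = v := by
    intro v hv
    have h1 := congrArg (fun F => F ⟨v, hv⟩) hp
    simp only [LinearMap.comp_apply, Submodule.subtype_apply, LinearMap.id_apply] at h1
    rw [h1]
  let col : Y → X → K := fun y x => A x y
  have hcol : ∀ η : Y → K, (fun x => ∑ y, A x y * η y) = ∑ y, η y • col y := by
    intro η
    funext x
    simp only [Finset.sum_apply, Pi.smul_apply, smul_eq_mul, col]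
    exact Finset.sum_congr rfl fun y _ => mul_comm _ _
  have hb : ∀ x : X, ∃ c : Fin g' → K, ∀ y, col y x - (p (col y) : X → K) x = ∑ n, c n * h n y := by
    intro x
    apply LRN_comb
    intro η hη
    have h1 := hp' _ (hrow η hη)
    rw [hcol η, map_sum] at h1
    have h2 := congrFun h1 x
    simp only [map_smul, Submodule.coe_sum, Submodule.coe_smul, Finset.sum_apply, Pi.smul_apply,
      smul_eq_mul] at h2
    unfold ev1
    have h3 : ∀ y : Y, (col y x - (p (col y) : X → K) x) * η y =
        η y * col y x - η y * (p (col y) : X → K) x := by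
      intro y
      ring
    rw [Finset.sum_congr rfl fun y _ => h3 y, Finset.sum_sub_distrib, h2, sub_self]
  choose c hc using hb
  have hd : ∀ y : Y, ∃ d : Fin g → K, ∀ x, (p (col y) : X → K) x = ∑ n, d n * f n x := by
    intro y
    obtain ⟨d, hd⟩ := (Submodule.mem_span_range_iff_exists_fun K).1 (p (col y)).2
    refine ⟨d, fun x => ?_⟩
    rw [← hd]
    simp
  choose d hd using hd
  refine ⟨Fin.append f (fun n x => c x n), Fin.append (fun n y => d y n) h, fun x y => ?_⟩
  rw [Fin.sum_univ_add]
  simp only [Fin.append_left, Fin.append_right]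
  have h1 := hc x y
  rw [hd y x] at h1
  have h2 : A x y = ∑ n, d y n * f n x + ∑ n, c x n * h n y := by
    rw [← h1]
    simp only [col]
    ring
  rw [h2]
  congr 1
  exact Finset.sum_congr rfl fun n _ => mul_comm _ _

end Pool.Agent.helper35.MR
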